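import Pool.Agent.Helper64.DT.Stmts

/-! Diamond-free circle graphs (MP_866009_co): module NCQ. -/

set_option autoImplicit false

namespace Pool.Agent.Helper64.DT

open Pool.Agent.Helper64.CT
open Pool.Agent.Helper64.HG (Ovl Model Circ IC HellyCircle ChordModel)

variable {V : Type}

theorem ncq_claim (l r : V → ℝ) (Q : Set V) (x u : V) (hx : x ∈ Q)
    (ho : ∀ y ∈ Q, ∀ z ∈ Q, y ≠ z → (l y < l z ∧ l z < r y ∧ r y < r z) ∨
      (l z < l y ∧ l y < r z ∧ r z < r y))
    (hxu : (l x < l u ∧ l u < r x ∧ r x < r u) ∨ (l u < l x ∧ l x < r u ∧ r u < r x))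
    (hn : ∀ y ∈ Q, y ≠ x → ¬ ((l y < l u ∧ l u < r y ∧ r y < r u) ∨
      (l u < l y ∧ l y < r u ∧ r u < r y)))
    (hdl : ∀ y ∈ Q, l y ≠ l u) (hdr : ∀ y ∈ Q, r y ≠ r u) (hlt : ∀ y, l y < r y) :
    (∀ y ∈ Q, y ≠ x → ((l y < l u ∧ r u < r y) ↔ l y < l x)) ∨
      (∀ y ∈ Q, y ≠ x → ((l y < l u ∧ r u < r y) ↔ l x < l y)) := by
  have hlr : ∀ y ∈ Q, ∀ z ∈ Q, l y < r z := by
    intro y hy z hz
    by_cases e : y = z
    · rw [e]; exact hlt z
    · rcases ho y hy z hz e with h | h
      · linarith [hlt z]
      · exact h.2.1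
  -- consequences of non-overlapping
  have hn1 : ∀ y ∈ Q, y ≠ x → l u < l y → l y < r u → r y < r u := by
    intro y hy hyx h1 h2
    by_contra h3
    exact hn y hy hyx (Or.inr ⟨h1, h2, lt_of_le_of_ne (not_lt.1 h3) (fun e => hdr y hy e.symm)⟩)
  have hn2 : ∀ y ∈ Q, y ≠ x → l y < l u → l u < r y → r u < r y := by
    intro y hy hyx h1 h2
    by_contra h3
    exact hn y hy hyx (Or.inl ⟨h1, h2, lt_of_le_of_ne (not_lt.1 h3) (hdr y hy)⟩)
  -- order of left ends is order of right ends
  have hm : ∀ y ∈ Q, ∀ z ∈ Q, l y < l z → r y < r z := by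
    intro y hy z hz h
    by_cases e : y = z
    · rw [e] at h; exact absurd h (lt_irrefl _)
    · rcases ho y hy z hz e with h' | h'
      · exact h'.2.2
      · linarith [h'.1]
  have hm' : ∀ y ∈ Q, ∀ z ∈ Q, r y < r z → l y < l z := by
    intro y hy z hz h
    by_cases e : y = z
    · rw [e] at h; exact absurd h (lt_irrefl _)
    · rcases ho y hy z hz e with h' | h'
      · exact h'.1
      · linarith [h'.2.2]
  rcases hxu with ⟨a1, a2, a3⟩ | ⟨a1, a2, a3⟩
  · -- `l x < l u < r x < r u`
    by_cases h : ∃ y ∈ Q, y ≠ x ∧ l u < l y ∧ r y < r u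
    · left
      obtain ⟨y0, hy0, hy0x, h1, h2⟩ := h
      intro y hy hyx
      constructor
      · rintro ⟨h3, h4⟩
        exfalso
        have := hm y hy y0 hy0 (by linarith)
        linarith
      · intro h3
        exfalso
        have h5 := hm y hy y0 hy0 (by linarith)
        have h6 := hlr y0 hy0 y hy
        have h7 := hn2 y hy hyx (by linarith) (by linarith)
        linarith
    · right
      intro y hy hyx
      constructor
      · rintro ⟨h3, h4⟩
        exact hm' x hx y hy (by linarith)
      · intro h3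
        have h4 := hm x hx y hy h3
        have h5 := hlr y hy x hx
        rcases lt_trichotomy (l y) (l u) with h6 | h6 | h6
        · exact ⟨h6, hn2 y hy hyx h6 (by linarith)⟩
        · exact absurd h6 (hdl y hy)
        · exact absurd ⟨y, hy, hyx, h6, hn1 y hy hyx h6 (by linarith)⟩ h
  · -- `l u < l x < r u < r x`
    by_cases h : ∃ y ∈ Q, y ≠ x ∧ l u < l y ∧ r y < r u
    · right
      obtain ⟨y0, hy0, hy0x, h1, h2⟩ := h
      intro y hy hyx
      constructor
      · rintro ⟨h3, h4⟩
        exfalso
        have := hm y hy y0 hy0 (by linarith)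
        linarith
      · intro h3
        exfalso
        have h4 := hm x hx y hy h3
        have h5 := hlr y hy y0 hy0
        have h6 := hn1 y hy hyx (by linarith) (by linarith)
        linarith
    · left
      intro y hy hyx
      constructor
      · rintro ⟨h3, h4⟩
        linarith
      · intro h3
        have h5 := hlr x hx y hy
        rcases lt_trichotomy (l y) (l u) with h6 | h6 | h6
        · exact ⟨h6, hn2 y hy hyx h6 (by linarith)⟩
        · exact absurd h6 (hdl y hy)
        · exact absurd ⟨y, hy, hyx, h6, hn1 y hy hyx h6 (by linarith)⟩ h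

open Classical in
theorem st_NCQ (hCFM : ST_CFM) (hSD2 : CT.ST_SD2) : ST_NCQ := by
  intro V _ G hDF hC Q hQ
  obtain ⟨l, r, M⟩ := hC
  -- the order
  have hθ : ∀ x y : V, Set.ncard {v : V | l v < l x} < Set.ncard {v : V | l v < l y} ↔
      l x < l y := by
    intro x y
    constructor
    · intro h
      by_contra h'
      have hs : {v : V | l v < l y} ⊆ {v : V | l v < l x} := fun v hv =>
        lt_of_lt_of_le (show l v < l y from hv) (not_lt.1 h')
      have := Set.ncard_le_ncard hs (Set.toFinite _)
      omega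
    · intro h
      refine Set.ncard_lt_ncard ⟨fun v hv => lt_trans (show l v < l x from hv) h, ?_⟩
        (Set.toFinite _)
      intro hs
      have h1 : x ∈ {v : V | l v < l x} := hs (show l x < l y from h)
      exact absurd (show l x < l x from h1) (lt_irrefl _)
  refine ⟨fun x => Set.ncard {v : V | l v < l x},
    fun u => decide (∃ x ∈ Q, G.Adj x u ∧ ∀ y ∈ Q, y ≠ x → (Ins l r y u ↔ l y < l x)),
    fun y u => decide (Ins l r y u), ?_, ?_⟩
  · intro x _ y _ hxy
    have hxy' : Set.ncard {v : V | l v < l x} = Set.ncard {v : V | l v < l y} := hxy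
    by_contra hne
    rcases lt_trichotomy (l x) (l y) with h | h | h
    · have := (hθ x y).2 h
      omega
    · exact hne (M.injl h)
    · have := (hθ y x).2 h
      omega
  · intro y hy
    refine ⟨⟨?_, ?_⟩, ?_⟩
    · intro u v huv
      exact decide_eq_decide.2 (hSD2 V G l r M y u v huv)
    · intro u v huv e
      exact hCFM V G l r M y u v huv (decide_eq_decide.1 e)
    · intro x hx hxy u hxu huQ
      have huq : ∀ q ∈ Q, u ≠ q := fun q hq e => huQ (e ▸ hq)
      have key := ncq_claim l r Q x u hx
        (fun y hy z hz hyz => (M.adj y z).1 (hQ.1 y hy z hz hyz))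
        ((M.adj x u).1 hxu)
        (fun y hy hyx hov => (hQ.out hDF hx hy (fun e => hyx e.symm) huQ hxu).2
          ((M.adj y u).2 hov))
        (fun y hy e => huq y hy (M.injl e).symm)
        (fun y hy e => huq y hy (M.injr e).symm) M.lt
      have huniq : ∀ x' ∈ Q, G.Adj x' u → x' = x := by
        intro x' hx' hx'u
        by_contra hne
        exact (hQ.out hDF hx hx' (fun e => hne e.symm) huQ hxu).2 hx'u
      have hlxy : l x ≠ l y := fun e => hxy (M.injl e)
      show decide (Ins l r y u) = xor (decide (∃ x ∈ Q, G.Adj x u ∧ ∀ y ∈ Q, y ≠ x →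
        (Ins l r y u ↔ l y < l x)))
        (decide (Set.ncard {v : V | l v < l x} < Set.ncard {v : V | l v < l y}))
      rw [decide_eq_decide.2 (hθ x y)]
      by_cases hL : ∃ x ∈ Q, G.Adj x u ∧ ∀ y ∈ Q, y ≠ x → (Ins l r y u ↔ l y < l x)
      · rw [decide_eq_true hL]
        obtain ⟨x', hx', hx'u, h'⟩ := hL
        have e := huniq x' hx' hx'u
        subst e
        have h1 := h' y hy (fun e => hxy e.symm)
        by_cases h2 : l y < l x'
        · rw [decide_eq_true (h1.2 h2), decide_eq_false (not_lt.2 h2.le)]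
          rfl
        · have h3 : l x' < l y := lt_of_le_of_ne (not_lt.1 h2) hlxy
          rw [decide_eq_false (fun h => h2 (h1.1 h)), decide_eq_true h3]
          rfl
      · rw [decide_eq_false hL]
        rcases key with h | h
        · exact absurd ⟨x, hx, hxu, h⟩ hL
        · have h1 : Ins l r y u ↔ l x < l y := h y hy (fun e => hxy e.symm)
          rw [decide_eq_decide.2 h1, Bool.false_xor]

end Pool.Agent.Helper64.DT
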